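import Pool.Agent.Q211.AM.Lin2

/-!
# A filterbase infinite set that is strongly filterbase finite

The model is a symmetric extension of permutation type. The atoms are the elements of
`(ℕ × ℕ) × ℕ` (every atom is represented by an infinite set of mutually generic Cohen reals); the
atoms with the same first coordinate `y` form the line `y`. The group consists of the permutations
of the atoms that induce a permutation of the set `ℕ × ℕ` of the lines which preserves every
column `{n} × ℕ` up to a finite set. The normal filter is generated by the stabilizers of the
single atoms and of the single columns. Let `V n` be the set of the unions of sets of lines that
differ from the column `n` by finitely many lines. These families are free filterbases, and the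
sequence of them is in the model, so the set `A` of the atoms is filterbase infinite. Let `F` be a
sequence of families that shows that `A` is strongly filterbase infinite, with a support that
consists of finitely many lines `E`, finitely many atoms on these lines, and finitely many columns.
Whether a member of the family `F i` has an infinite intersection with a line depends only on the
line, if it is in `E`, and on the columns of the support that contain the line, otherwise. So there
are `i` and `j` such that `F i` and `F j` have infinite intersections with the same lines, and
there is such a line, as members of `F i` are infinite. Subsets of `A` in the model that have an
infinite intersection with a line contain almost all its points, so members of `F i` and `F j` have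
infinite intersections, a contradiction.
-/

set_option autoImplicit false

namespace Pool.Agent.Results.MP_915581_lc.FilterbaseNotStrongly

open Pool.Agent.W868 Pool.Agent.W868.PName Pool.Agent.Q211.SY Pool.Agent.Q211.FS
open Pool.Agent.Q211.TP Pool.Agent.Q211.AM

/-- There is a countable transitive model of ZF with a set that is filterbase infinite but not
strongly filterbase infinite. -/
theorem result : ∃ M : Set ZFSet.{0}, M.Countable ∧ IsZF M ∧
    ∃ A ∈ M, FbInf M A ∧ ¬ StrongInf M A := by
  obtain ⟨M, at', st, h⟩ := exists_lin LT
  exact ⟨M, h.cnt, h.zf, st Set.univ, h.stM _ univ_DL, fbInf h, not_strong h⟩

end Pool.Agent.Results.MP_915581_lc.FilterbaseNotStrongly
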